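import Mathlib

/-! Theta series with exponents `η n^(1/lam)`: summability, decay, continuity, Mellin transform. -/

set_option autoImplicit false

open MeasureTheory Set Filter Topology Asymptotics

namespace Pool.Agent.H949Z.Hecke

/-- the exponents -/
noncomputable def yy (lam η : ℝ) (n : ℕ) : ℝ := η * (n : ℝ) ^ (1 / lam)

/-- the theta series -/
noncomputable def th (lam η : ℝ) (a : ℕ → ℝ) (t : ℝ) : ℝ :=
  ∑' n : ℕ, a n * Real.exp (-(t * yy lam η n))

theorem yy_nonneg {lam η : ℝ} (hη : 0 < η) (n : ℕ) : 0 ≤ yy lam η n := by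
  unfold yy; positivity

theorem le_yy {lam η : ℝ} (hlam : 0 < lam) (hη : 0 < η) {n : ℕ} (hn : 1 ≤ n) :
    η ≤ yy lam η n := by
  unfold yy
  have : (1 : ℝ) ≤ (n : ℝ) ^ (1 / lam) :=
    Real.one_le_rpow (by exact_mod_cast hn) (by positivity)
  nlinarith

theorem summable_abs {lam η B C : ℝ} (hlam : 0 < lam) (hη : 0 < η) {a : ℕ → ℝ} (ha0 : a 0 = 0)
    (ha : ∀ n : ℕ, 1 ≤ n → |a n| ≤ C * (n : ℝ) ^ B) {t : ℝ} (ht : 0 < t) :
    Summable fun n : ℕ => |a n| * Real.exp (-(t * yy lam η n)) := by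
  obtain ⟨k, hk⟩ := exists_nat_ge (lam * (B + 2))
  have hC : 0 ≤ C := by
    have := ha 1 le_rfl
    simp only [Nat.cast_one, Real.one_rpow, mul_one] at this
    exact (abs_nonneg _).trans this
  have hs : Summable fun n : ℕ => (C * (k.factorial / (t * η) ^ k)) * (n : ℝ) ^ (-2 : ℝ) :=
    (Real.summable_nat_rpow.2 (by norm_num)).mul_left _
  refine Summable.of_nonneg_of_le (fun n => by positivity) (fun n => ?_) hs
  rcases Nat.eq_zero_or_pos n with rfl | hn
  · simp only [ha0, abs_zero, zero_mul]; positivity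
  have hn1 : (1 : ℝ) ≤ n := by exact_mod_cast hn
  have hn0 : (0 : ℝ) < n := by linarith
  have hx : 0 < t * yy lam η n := mul_pos ht (hη.trans_le (le_yy hlam hη hn))
  have h1 : Real.exp (-(t * yy lam η n)) ≤ k.factorial / (t * yy lam η n) ^ k := by
    have := Real.pow_div_factorial_le_exp _ hx.le k
    rw [Real.exp_neg, ← one_div, div_le_div_iff₀ (Real.exp_pos _) (by positivity), one_mul]
    rw [div_le_iff₀ (by positivity)] at this
    linarith
  have h2 : (t * yy lam η n) ^ k = (t * η) ^ k * (n : ℝ) ^ ((k : ℝ) / lam) := by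
    unfold yy
    rw [← mul_assoc, mul_pow, ← Real.rpow_natCast ((n : ℝ) ^ (1 / lam)), ← Real.rpow_mul hn0.le]
    congr 2; ring
  have h3 : (n : ℝ) ^ B / (n : ℝ) ^ ((k : ℝ) / lam) ≤ (n : ℝ) ^ (-2 : ℝ) := by
    rw [← Real.rpow_sub hn0]
    refine Real.rpow_le_rpow_of_exponent_le hn1 ?_
    have : B + 2 ≤ k / lam := by rw [le_div_iff₀ hlam]; linarith
    linarith
  calc |a n| * Real.exp (-(t * yy lam η n))
      ≤ (C * (n : ℝ) ^ B) * (k.factorial / (t * yy lam η n) ^ k) := by
        gcongr; exact ha n hn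
    _ = (C * (k.factorial / (t * η) ^ k)) * ((n : ℝ) ^ B / (n : ℝ) ^ ((k : ℝ) / lam)) := by
        rw [h2]; field_simp
    _ ≤ _ := by gcongr

theorem summable_th {lam η B C : ℝ} (hlam : 0 < lam) (hη : 0 < η) {a : ℕ → ℝ} (ha0 : a 0 = 0)
    (ha : ∀ n : ℕ, 1 ≤ n → |a n| ≤ C * (n : ℝ) ^ B) {t : ℝ} (ht : 0 < t) :
    Summable fun n : ℕ => a n * Real.exp (-(t * yy lam η n)) := by
  refine Summable.of_norm ?_
  simpa [abs_mul, abs_of_pos (Real.exp_pos _)] using summable_abs hlam hη ha0 ha ht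

theorem th_decay {lam η B C : ℝ} (hlam : 0 < lam) (hη : 0 < η) {a : ℕ → ℝ} (ha0 : a 0 = 0)
    (ha : ∀ n : ℕ, 1 ≤ n → |a n| ≤ C * (n : ℝ) ^ B) :
    ∃ D : ℝ, 0 ≤ D ∧ ∀ t : ℝ, 1 ≤ t → |th lam η a t| ≤ D * Real.exp (-(η / 2) * t) := by
  have hs := summable_abs hlam hη ha0 ha (t := 1 / 2) (by norm_num)
  refine ⟨∑' n : ℕ, |a n| * Real.exp (-(1 / 2 * yy lam η n)),
    tsum_nonneg fun n => by positivity, fun t ht => ?_⟩
  rw [← tsum_mul_right, ← Real.norm_eq_abs]
  refine tsum_of_norm_bounded (hs.mul_right _).hasSum fun n => ?_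
  rw [norm_mul, Real.norm_eq_abs, Real.norm_eq_abs, abs_of_pos (Real.exp_pos _)]
  rcases Nat.eq_zero_or_pos n with rfl | hn
  · simp [ha0]
  rw [mul_assoc, ← Real.exp_add]
  gcongr
  have := le_yy hlam hη hn
  nlinarith

theorem th_cont {lam η B C : ℝ} (hlam : 0 < lam) (hη : 0 < η) {a : ℕ → ℝ} (ha0 : a 0 = 0)
    (ha : ∀ n : ℕ, 1 ≤ n → |a n| ≤ C * (n : ℝ) ^ B) : ContinuousOn (th lam η a) (Ioi 0) := by
  intro t ht
  have ht' : 0 < t := ht
  have h1 : ContinuousOn (th lam η a) (Ioi (t / 2)) := by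
    refine continuousOn_tsum (fun n => by fun_prop)
      (summable_abs hlam hη ha0 ha (t := t / 2) (by linarith)) fun n x hx => ?_
    rw [norm_mul, Real.norm_eq_abs, Real.norm_eq_abs, abs_of_pos (Real.exp_pos _)]
    have hx' : t / 2 < x := hx
    have := yy_nonneg (lam := lam) hη n
    gcongr
  exact (h1.continuousAt (Ioi_mem_nhds (by linarith))).continuousWithinAt

theorem mellin_conj (f : ℝ → ℝ) (w : ℂ) :
    mellin (fun t => (f t : ℂ)) (starRingEnd ℂ w) =
      starRingEnd ℂ (mellin (fun t => (f t : ℂ)) w) := by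
  unfold mellin
  rw [← integral_conj]
  refine setIntegral_congr_fun measurableSet_Ioi fun t ht => ?_
  have ht' : (0 : ℝ) < t := ht
  simp only [smul_eq_mul, map_mul, Complex.conj_ofReal]
  congr 1
  have harg : (t : ℂ).arg ≠ Real.pi := by
    rw [Complex.arg_ofReal_of_nonneg ht'.le]; exact Real.pi_pos.ne
  have := Complex.cpow_conj (t : ℂ) (w - 1) harg
  rw [Complex.conj_ofReal] at this
  rw [← this]
  simp

/-- Everything we need about the completed function. -/
theorem mellin_facts {lam η : ℝ} (hlam : 0 < lam) (hη : 0 < η) (f : ℝ → ℝ)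
    (hc : ContinuousOn f (Ioi 0)) {D : ℝ} (hD : 0 ≤ D)
    (hd : ∀ t : ℝ, 1 ≤ t → |f t| ≤ D * Real.exp (-(η / 2) * t))
    (hFE : ∀ t : ℝ, 0 < t → f (1 / t) = t ^ lam * f t) :
    Differentiable ℂ (mellin fun t => (f t : ℂ)) ∧
    (∀ w : ℂ, mellin (fun t => (f t : ℂ)) (lam - w) = mellin (fun t => (f t : ℂ)) w) ∧
    ∃ K : ℝ, 0 ≤ K ∧ ∀ w : ℂ,
      ‖mellin (fun t => (f t : ℂ)) w‖ ≤ K * Real.exp (4 * (|w.re| + lam) ^ 2 / η) := by
  have hint : LocallyIntegrableOn (fun t => (f t : ℂ)) (Ioi 0) :=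
    (Complex.continuous_ofReal.comp_continuousOn hc).locallyIntegrableOn measurableSet_Ioi
  have htop : ∀ r : ℝ, (fun t => (f t : ℂ) - 0) =O[atTop] (· ^ r) := by
    intro r
    refine IsBigO.trans (g := fun t => Real.exp (-(η / 2) * t)) ?_
      (isLittleO_exp_neg_mul_rpow_atTop (by positivity) r).isBigO
    refine IsBigO.of_bound D ?_
    filter_upwards [eventually_ge_atTop 1] with t ht
    simpa [abs_of_pos (Real.exp_pos _)] using hd t ht
  let P : WeakFEPair ℂ :=
    { f := fun t => (f t : ℂ), g := fun t => (f t : ℂ), k := lam, ε := 1, f₀ := 0, g₀ := 0,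
      hf_int := hint, hg_int := hint, hk := hlam, hε := one_ne_zero,
      h_feq := fun x hx => by
        rw [hFE x hx]; simp
      hf_top := htop, hg_top := htop }
  have hP : IsStrongFEPair P := ⟨rfl, rfl⟩
  have hΛ : P.Λ = mellin fun t => (f t : ℂ) := hP.Λ_eq
  have hΛ' : P.symm.Λ = mellin fun t => (f t : ℂ) := hP.symm_Λ_eq
  have hfe : ∀ w : ℂ, mellin (fun t => (f t : ℂ)) (lam - w) = mellin (fun t => (f t : ℂ)) w := by
    intro w
    have := P.functional_equation w
    rw [hΛ, hΛ'] at this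
    simpa [P] using this
  refine ⟨hΛ ▸ hP.differentiable_Λ, hfe, ?_⟩
  have hconv : MellinConvergent (fun t => (f t : ℂ)) ((lam / 2 : ℝ) : ℂ) := (hP.hasMellin _).1
  have hI1 : IntegrableOn (fun t : ℝ => ‖(t : ℂ) ^ (((lam / 2 : ℝ) : ℂ) - 1) • (f t : ℂ)‖)
      (Ioi 0) := hconv.norm
  have hI2 : IntegrableOn (fun t : ℝ => Real.exp (-(η / 4) * t)) (Ioi 0) :=
    exp_neg_integrableOn_Ioi 0 (by positivity)
  set D0 : ℝ := ∫ t in Ioi (0 : ℝ), ‖(t : ℂ) ^ (((lam / 2 : ℝ) : ℂ) - 1) • (f t : ℂ)‖ with hD0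
  set D1 : ℝ := ∫ t in Ioi (0 : ℝ), Real.exp (-(η / 4) * t) with hD1
  have hD0n : 0 ≤ D0 := integral_nonneg fun t => norm_nonneg _
  have hD1n : 0 ≤ D1 := integral_nonneg fun t => (Real.exp_pos _).le
  have key : ∀ w : ℂ, lam / 2 ≤ w.re →
      ‖mellin (fun t => (f t : ℂ)) w‖ ≤ (D0 + D * D1) * Real.exp (4 * w.re ^ 2 / η) := by
    intro w hw
    have hw0 : 0 ≤ w.re := by linarith
    have hb : ‖mellin (fun t => (f t : ℂ)) w‖ ≤
        ∫ t in Ioi (0 : ℝ), (‖(t : ℂ) ^ (((lam / 2 : ℝ) : ℂ) - 1) • (f t : ℂ)‖ +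
          (D * Real.exp (4 * w.re ^ 2 / η)) * Real.exp (-(η / 4) * t)) := by
      unfold mellin
      refine norm_integral_le_of_norm_le (hI1.add (hI2.const_mul _)) ?_
      refine (ae_restrict_iff' measurableSet_Ioi).2 (Eventually.of_forall fun t ht => ?_)
      have ht' : (0 : ℝ) < t := ht
      rw [norm_smul, norm_smul, Complex.norm_cpow_eq_rpow_re_of_pos ht',
        Complex.norm_cpow_eq_rpow_re_of_pos ht', Complex.norm_real, Real.norm_eq_abs]
      simp only [Complex.sub_re, Complex.one_re, Complex.ofReal_re]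
      rcases le_total t 1 with h | h
      · have : t ^ (w.re - 1) ≤ t ^ (lam / 2 - 1) :=
          Real.rpow_le_rpow_of_exponent_ge ht' h (by linarith)
        have h2 : t ^ (w.re - 1) * |f t| ≤ t ^ (lam / 2 - 1) * |f t| := by gcongr
        have h3 : 0 ≤ (D * Real.exp (4 * w.re ^ 2 / η)) * Real.exp (-(η / 4) * t) := by positivity
        linarith
      · have h1 : t ^ (w.re - 1) ≤ Real.exp (η / 4 * t + 4 * w.re ^ 2 / η) := by
          have a1 : t ^ (w.re - 1) ≤ t ^ w.re :=
            Real.rpow_le_rpow_of_exponent_le h (by linarith)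
          refine a1.trans ?_
          rw [Real.rpow_def_of_pos ht']
          refine Real.exp_le_exp.2 ?_
          have a2 : Real.log t ≤ 2 * Real.sqrt t := by
            have b1 : Real.log t = 2 * Real.log (Real.sqrt t) := by
              rw [Real.log_sqrt ht'.le]; ring
            have b2 := Real.log_le_sub_one_of_pos (Real.sqrt_pos.2 ht')
            linarith
          have a3 : Real.sqrt t ^ 2 = t := Real.sq_sqrt ht'.le
          have a4 : 2 * Real.sqrt t * w.re ≤ η / 4 * t + 4 * w.re ^ 2 / η := by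
            have b1 : 0 ≤ (η / 2 * Real.sqrt t - 2 * w.re) ^ 2 / η := by positivity
            have b2 : (η / 2 * Real.sqrt t - 2 * w.re) ^ 2 / η =
                η / 4 * Real.sqrt t ^ 2 + 4 * w.re ^ 2 / η - 2 * Real.sqrt t * w.re := by
              field_simp; ring
            rw [a3] at b2
            linarith
          nlinarith
        have h2 : t ^ (w.re - 1) * |f t| ≤
            Real.exp (η / 4 * t + 4 * w.re ^ 2 / η) * (D * Real.exp (-(η / 2) * t)) := by
          gcongr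
          exact hd t h
        have h3 : Real.exp (η / 4 * t + 4 * w.re ^ 2 / η) * (D * Real.exp (-(η / 2) * t)) =
            (D * Real.exp (4 * w.re ^ 2 / η)) * Real.exp (-(η / 4) * t) := by
          rw [mul_left_comm, mul_assoc, ← Real.exp_add, ← Real.exp_add]
          congr 2; ring
        have h4 : 0 ≤ t ^ (lam / 2 - 1) * |f t| := by positivity
        linarith
    rw [integral_add hI1 (hI2.const_mul _), integral_const_mul] at hb
    have h1 : 1 ≤ Real.exp (4 * w.re ^ 2 / η) := Real.one_le_exp (by positivity)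
    refine hb.trans ?_
    rw [← hD0, ← hD1]
    nlinarith
  refine ⟨D0 + D * D1, by positivity, fun w => ?_⟩
  rcases le_total (lam / 2) w.re with h | h
  · refine (key w h).trans ?_
    have h1 : w.re ^ 2 ≤ (|w.re| + lam) ^ 2 :=
      sq_le_sq' (by linarith [neg_abs_le w.re]) (by linarith [le_abs_self w.re])
    exact mul_le_mul_of_nonneg_left (Real.exp_le_exp.2 (div_le_div_of_nonneg_right
      (by linarith) hη.le)) (by positivity)
  · rw [← hfe w]
    refine (key _ (by simp; linarith)).trans ?_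
    have h1 : (lam - w.re) ^ 2 ≤ (|w.re| + lam) ^ 2 :=
      sq_le_sq' (by linarith [le_abs_self w.re]) (by linarith [neg_abs_le w.re])
    simp only [Complex.sub_re, Complex.ofReal_re]
    exact mul_le_mul_of_nonneg_left (Real.exp_le_exp.2 (div_le_div_of_nonneg_right
      (by linarith) hη.le)) (by positivity)

end Pool.Agent.H949Z.Hecke
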