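import Mathlib
import Pool.Agent.H949Z.Hecke.A
import Pool.Agent.Helper242.KK.Gam2
import Pool.Agent.H520Z.Sel.PL

/-! Hecke's correspondence for the theta series of `A.lean`. -/

set_option autoImplicit false

open MeasureTheory Set Filter Topology

namespace Pool.Agent.H949Z.Hecke

/-- the entire function -/
noncomputable def FF (lam η : ℝ) (Λ : ℂ → ℂ) (s : ℂ) : ℂ :=
  Λ (lam * s) * Complex.exp (lam * s * Real.log η) * (Complex.Gamma (lam * s))⁻¹

theorem FF_diff {lam η : ℝ} {Λ : ℂ → ℂ} (hΛ : Differentiable ℂ Λ) :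
    Differentiable ℂ (FF lam η Λ) := by
  unfold FF
  refine Differentiable.mul (Differentiable.mul (hΛ.comp (by fun_prop)) (by fun_prop)) ?_
  exact Complex.differentiable_one_div_Gamma.comp (by fun_prop : Differentiable ℂ
    fun s : ℂ => (lam : ℂ) * s)

theorem norm_expfac (lam η : ℝ) (s : ℂ) :
    ‖Complex.exp (lam * s * Real.log η)‖ = Real.exp (lam * s.re * Real.log η) := by
  rw [Complex.norm_exp]
  simp

theorem decomp (lam : ℝ) (s : ℂ) :
    (lam : ℂ) * s = ((lam * s.re : ℝ) : ℂ) + ((lam * s.im : ℝ) : ℂ) * Complex.I := by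
  conv_lhs => rw [← Complex.re_add_im s]
  push_cast; ring

theorem FF_growth {lam η : ℝ} (hlam : 0 < lam) (hη : 0 < η) {Λ : ℂ → ℂ} {K : ℝ} (hK : 0 ≤ K)
    (hb : ∀ w : ℂ, ‖Λ w‖ ≤ K * Real.exp (4 * (|w.re| + lam) ^ 2 / η)) :
    ∃ K' c : ℝ, 0 ≤ K' ∧ 0 ≤ c ∧ ∀ s : ℂ, ‖FF lam η Λ s‖ ≤ K' * Real.exp (c * (1 + ‖s‖) ^ 2) := by
  obtain ⟨C, hC, hG⟩ := Pool.Agent.Helper242.KK.inv_Gamma_bound (ε := 1) one_pos
  refine ⟨K * C, 4 * lam ^ 2 / η + lam * |Real.log η| + lam ^ 2 + (2 + lam) * lam + 2 * lam,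
    by positivity, by positivity, fun s => ?_⟩
  set r : ℝ := 1 + ‖s‖ with hr
  have hr1 : 1 ≤ r := by rw [hr]; linarith [norm_nonneg s]
  have hre : |s.re| + 1 ≤ r := by rw [hr]; linarith [Complex.abs_re_le_norm s]
  have him : |s.im| ≤ r := by rw [hr]; linarith [Complex.abs_im_le_norm s]
  have hrr : r ≤ r ^ 2 := by nlinarith
  have hre' : |s.re| ≤ r := by linarith
  have h1 : ‖Λ (lam * s)‖ ≤ K * Real.exp (4 * lam ^ 2 / η * r ^ 2) := by
    refine (hb _).trans (mul_le_mul_of_nonneg_left (Real.exp_le_exp.2 ?_) hK)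
    have e1 : ((lam : ℂ) * s).re = lam * s.re := by simp
    rw [e1, abs_mul, abs_of_pos hlam]
    have e2 : (lam * |s.re| + lam) ^ 2 ≤ lam ^ 2 * r ^ 2 := by
      have : lam * |s.re| + lam = lam * (|s.re| + 1) := by ring
      rw [this, mul_pow]
      gcongr
    calc 4 * (lam * |s.re| + lam) ^ 2 / η ≤ 4 * (lam ^ 2 * r ^ 2) / η := by gcongr
      _ = 4 * lam ^ 2 / η * r ^ 2 := by ring
  have h2 : ‖Complex.exp (lam * s * Real.log η)‖ ≤ Real.exp (lam * |Real.log η| * r ^ 2) := by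
    rw [norm_expfac]
    refine Real.exp_le_exp.2 ?_
    calc lam * s.re * Real.log η ≤ |lam * s.re * Real.log η| := le_abs_self _
      _ = lam * |Real.log η| * |s.re| := by rw [abs_mul, abs_mul, abs_of_pos hlam]; ring
      _ ≤ lam * |Real.log η| * r ^ 2 := by gcongr; linarith
  have h3 : ‖(Complex.Gamma (lam * s))⁻¹‖ ≤
      C * Real.exp (lam ^ 2 * r ^ 2) * Real.exp ((2 + lam) * lam * r ^ 2) *
        Real.exp (2 * lam * r ^ 2) := by
    rw [decomp]
    refine (hG _ _).trans ?_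
    have a1 : Real.exp (1 * (lam * s.re) ^ 2) ≤ Real.exp (lam ^ 2 * r ^ 2) := by
      refine Real.exp_le_exp.2 ?_
      rw [one_mul, mul_pow, ← sq_abs s.re]
      gcongr
    have a2 : (1 + |lam * s.im|) ^ (2 - lam * s.re) ≤ Real.exp ((2 + lam) * lam * r ^ 2) := by
      have b0 : (1 : ℝ) ≤ 1 + |lam * s.im| := by linarith [abs_nonneg (lam * s.im)]
      have b1 : 2 - lam * s.re ≤ (2 + lam) * r := by
        have : -(lam * s.re) ≤ lam * r := by
          have := neg_abs_le s.re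
          nlinarith
        nlinarith
      refine (Real.rpow_le_rpow_of_exponent_le b0 b1).trans ?_
      rw [Real.rpow_def_of_pos (by linarith)]
      refine Real.exp_le_exp.2 ?_
      have b2 : Real.log (1 + |lam * s.im|) ≤ lam * r := by
        have := Real.log_le_sub_one_of_pos (show 0 < 1 + |lam * s.im| by linarith)
        rw [abs_mul, abs_of_pos hlam] at this ⊢
        nlinarith
      calc Real.log (1 + |lam * s.im|) * ((2 + lam) * r) ≤ (lam * r) * ((2 + lam) * r) := by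
            gcongr
        _ = (2 + lam) * lam * r ^ 2 := by ring
    have a3 : Real.exp (Real.pi / 2 * |lam * s.im|) ≤ Real.exp (2 * lam * r ^ 2) := by
      refine Real.exp_le_exp.2 ?_
      rw [abs_mul, abs_of_pos hlam]
      have := Real.pi_lt_four
      have b1 : lam * |s.im| ≤ lam * r ^ 2 := by gcongr; linarith
      have b2 : 0 ≤ lam * |s.im| := by positivity
      nlinarith
    gcongr
  unfold FF
  rw [norm_mul, norm_mul]
  calc ‖Λ (lam * s)‖ * ‖Complex.exp (lam * s * Real.log η)‖ * ‖(Complex.Gamma (lam * s))⁻¹‖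
      ≤ (K * Real.exp (4 * lam ^ 2 / η * r ^ 2)) * Real.exp (lam * |Real.log η| * r ^ 2) *
        (C * Real.exp (lam ^ 2 * r ^ 2) * Real.exp ((2 + lam) * lam * r ^ 2) *
          Real.exp (2 * lam * r ^ 2)) := by gcongr
    _ = _ := by
      simp only [add_mul, Real.exp_add]
      ring

theorem FF_lseries {lam η B C : ℝ} (hlam : 0 < lam) (hη : 0 < η) {a : ℕ → ℝ} (ha0 : a 0 = 0)
    (ha : ∀ n : ℕ, 1 ≤ n → |a n| ≤ C * (n : ℝ) ^ B) (s : ℂ) (hs : 0 < s.re)
    (hsum : LSeriesSummable (fun n => (a n : ℂ)) s) :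
    FF lam η (mellin fun t => (th lam η a t : ℂ)) s = LSeries (fun n => (a n : ℂ)) s := by
  have hre : ((lam : ℂ) * s).re = lam * s.re := by simp
  have hpos : 0 < ((lam : ℂ) * s).re := by rw [hre]; positivity
  have hG : Complex.Gamma (lam * s) ≠ 0 := Complex.Gamma_ne_zero_of_re_pos hpos
  have hy : ∀ n : ℕ, 1 ≤ n → ((yy lam η n : ℝ) : ℂ) ^ ((lam : ℂ) * s) =
      Complex.exp (lam * s * Real.log η) * (n : ℂ) ^ s := by
    intro n hn
    have hn0 : (0 : ℝ) < n := by exact_mod_cast hn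
    have hyp : 0 < yy lam η n := hη.trans_le (le_yy hlam hη hn)
    have hnc : (n : ℂ) ≠ 0 := by exact_mod_cast hn0.ne'
    rw [Complex.cpow_def_of_ne_zero (by exact_mod_cast hyp.ne'), Complex.cpow_def_of_ne_zero hnc,
      ← Complex.exp_add, ← Complex.ofReal_log hyp.le, ← Complex.natCast_log]
    congr 1
    have : Real.log (yy lam η n) = Real.log η + 1 / lam * Real.log n := by
      unfold yy
      rw [Real.log_mul hη.ne' (by positivity), Real.log_rpow hn0]
    rw [this]
    have hl : (lam : ℂ) ≠ 0 := by exact_mod_cast hlam.ne'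
    push_cast
    field_simp
  have h := hasSum_mellin (a := fun n : ℕ => (a n : ℂ)) (p := yy lam η)
    (F := fun t => (th lam η a t : ℂ)) (s := (lam : ℂ) * s)
    (fun n => by
      rcases Nat.eq_zero_or_pos n with rfl | hn
      · left; simp [ha0]
      · right; exact hη.trans_le (le_yy hlam hη hn)) hpos
    (fun t ht => by
      have := (summable_th hlam hη ha0 ha (t := t) ht).hasSum
      have h2 := Complex.hasSum_ofReal.2 this
      convert h2 using 2 with n
      · push_cast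
        congr 2; ring
      · rfl)
    (by
      have h1 := (hsum.norm).mul_left (η ^ (lam * s.re))⁻¹
      refine h1.congr fun n => ?_
      rw [LSeries.norm_term_eq, hre]
      rcases Nat.eq_zero_or_pos n with rfl | hn
      · simp [ha0]
      have hn0 : (0 : ℝ) < n := by exact_mod_cast hn
      rw [if_neg hn.ne']
      unfold yy
      rw [Real.mul_rpow hη.le (by positivity), ← Real.rpow_mul hn0.le]
      have : 1 / lam * (lam * s.re) = s.re := by field_simp
      rw [this]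
      field_simp)
  have h2 := (h.mul_right (Complex.exp (lam * s * Real.log η))).mul_right
    (Complex.Gamma (lam * s))⁻¹
  unfold FF LSeries
  rw [← h2.tsum_eq]
  refine tsum_congr fun n => ?_
  rcases Nat.eq_zero_or_pos n with rfl | hn
  · simp [ha0]
  rw [LSeries.term_of_ne_zero hn.ne', hy n hn]
  have := Complex.exp_ne_zero (lam * s * Real.log η)
  have hnc : (n : ℂ) ^ s ≠ 0 := by
    rw [Ne, Complex.cpow_eq_zero_iff]; rintro ⟨h, -⟩; exact hn.ne' (by exact_mod_cast h)
  field_simp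

theorem FF_completed {lam η : ℝ} (hη : 0 < η) (Λ : ℂ → ℂ) (s : ℂ)
    (h : ∀ n : ℕ, (lam : ℂ) * s ≠ -(n : ℂ)) :
    ((η ^ (-lam) : ℝ) : ℂ) ^ s * Complex.Gamma ((lam : ℂ) * s) * FF lam η Λ s = Λ (lam * s) := by
  have hG : Complex.Gamma (lam * s) ≠ 0 := Complex.Gamma_ne_zero h
  have hp : 0 < η ^ (-lam) := Real.rpow_pos_of_pos hη _
  have h1 : ((η ^ (-lam) : ℝ) : ℂ) ^ s = (Complex.exp (lam * s * Real.log η))⁻¹ := by
    rw [Complex.cpow_def_of_ne_zero (by exact_mod_cast hp.ne'), ← Complex.ofReal_log hp.le,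
      Real.log_rpow hη, ← Complex.exp_neg]
    congr 1
    push_cast; ring
  rw [h1]
  unfold FF
  have := Complex.exp_ne_zero (lam * s * Real.log η)
  field_simp

theorem FF_left {lam η : ℝ} (hlam : 0 < lam) {Λ : ℂ → ℂ} (hfe : ∀ w : ℂ, Λ (lam - w) = Λ w)
    {S Z : ℝ} (hS : 1 ≤ S) (hZ : ∀ s : ℂ, s.re = S → ‖FF lam η Λ s‖ ≤ Z) :
    ∃ K M : ℝ, 0 ≤ K ∧ 0 ≤ M ∧ ∀ s : ℂ, s.re = 1 - S → ‖FF lam η Λ s‖ ≤ K * (1 + |s.im|) ^ M := by
  obtain ⟨C, hC, hG⟩ := Pool.Agent.Helper242.KK.inv_Gamma_bound (ε := 1) one_pos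
  have hZ0 : 0 ≤ Z := (norm_nonneg _).trans (hZ S (by simp))
  have hlS : 0 < lam * S := by positivity
  have hGp : 0 < Real.Gamma (lam * S) := Real.Gamma_pos_of_pos hlS
  have hM2 : 0 ≤ 2 - lam * (1 - S) := by nlinarith
  refine ⟨Z * (Real.exp (lam * S * Real.log η))⁻¹ * Real.exp (lam * (1 - S) * Real.log η) *
      (Real.exp 1 * Real.Gamma (lam * S) * (Real.pi / 2) ^ (lam * S)) *
      (C * Real.exp (1 * (lam * (1 - S)) ^ 2)) * (1 + lam) ^ (lam * S + (2 - lam * (1 - S))),
    lam * S + (2 - lam * (1 - S)), by positivity, by positivity, fun s hs => ?_⟩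
  have hre : (1 - s).re = S := by simp [hs]
  have hGne : Complex.Gamma (lam * (1 - s)) ≠ 0 :=
    Complex.Gamma_ne_zero_of_re_pos (by simp [hs]; positivity)
  have hid : FF lam η Λ s = FF lam η Λ (1 - s) * (Complex.exp (lam * (1 - s) * Real.log η))⁻¹ *
      Complex.exp (lam * s * Real.log η) * Complex.Gamma (lam * (1 - s)) *
      (Complex.Gamma (lam * s))⁻¹ := by
    unfold FF
    have : Λ (lam * (1 - s)) = Λ (lam * s) := by rw [← hfe (lam * s)]; congr 1; ring
    rw [this]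
    have := Complex.exp_ne_zero (lam * (1 - s) * Real.log η)
    field_simp
  set v : ℝ := |lam * s.im| with hv
  have hv0 : 0 ≤ v := abs_nonneg _
  have g1 : ‖Complex.Gamma (lam * (1 - s))‖ ≤ Real.exp (1 - Real.pi / 2 * v) *
      Real.Gamma (lam * S) * (Real.pi / 2 * (1 + v)) ^ (lam * S) := by
    rw [decomp, hre]
    have := Pool.Agent.Helper242.KK.norm_Gamma_le (lam * (1 - s).im) hlS
    have e : |lam * (1 - s).im| = v := by simp [hv]
    rwa [e] at this
  have g2 : ‖(Complex.Gamma (lam * s))⁻¹‖ ≤ C * Real.exp (1 * (lam * (1 - S)) ^ 2) *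
      (1 + v) ^ (2 - lam * (1 - S)) * Real.exp (Real.pi / 2 * v) := by
    rw [decomp, hs]
    exact hG _ _
  have g3 : (1 + v) ^ (lam * S + (2 - lam * (1 - S))) ≤
      (1 + lam) ^ (lam * S + (2 - lam * (1 - S))) *
        (1 + |s.im|) ^ (lam * S + (2 - lam * (1 - S))) := by
    rw [← Real.mul_rpow (by positivity) (by positivity)]
    refine Real.rpow_le_rpow (by positivity) ?_ (by positivity)
    rw [hv, abs_mul, abs_of_pos hlam]
    nlinarith [abs_nonneg s.im]
  rw [hid, norm_mul, norm_mul, norm_mul, norm_mul, norm_inv, norm_expfac, norm_expfac, hre, hs]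
  calc ‖FF lam η Λ (1 - s)‖ * (Real.exp (lam * S * Real.log η))⁻¹ *
        Real.exp (lam * (1 - S) * Real.log η) * ‖Complex.Gamma (lam * (1 - s))‖ *
        ‖(Complex.Gamma (lam * s))⁻¹‖
      ≤ Z * (Real.exp (lam * S * Real.log η))⁻¹ * Real.exp (lam * (1 - S) * Real.log η) *
        (Real.exp (1 - Real.pi / 2 * v) * Real.Gamma (lam * S) *
          (Real.pi / 2 * (1 + v)) ^ (lam * S)) *
        (C * Real.exp (1 * (lam * (1 - S)) ^ 2) * (1 + v) ^ (2 - lam * (1 - S)) *
          Real.exp (Real.pi / 2 * v)) := by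
        gcongr
        exact hZ _ hre
    _ = Z * (Real.exp (lam * S * Real.log η))⁻¹ * Real.exp (lam * (1 - S) * Real.log η) *
        (Real.exp 1 * Real.Gamma (lam * S) * (Real.pi / 2) ^ (lam * S)) *
        (C * Real.exp (1 * (lam * (1 - S)) ^ 2)) * (1 + v) ^ (lam * S + (2 - lam * (1 - S))) := by
        rw [Real.mul_rpow (by positivity) (by positivity), Real.rpow_add (by positivity),
          Real.exp_sub]
        have := Real.exp_pos (Real.pi / 2 * v)
        field_simp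
    _ ≤ _ := by
        rw [mul_assoc _ ((1 + lam) ^ _)]
        gcongr

end Pool.Agent.H949Z.Hecke
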