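import Mathlib
import Pool.Agent.H949Z.Hecke.B

/-! The Hecke lemma requested by helper520. -/

set_option autoImplicit false

open MeasureTheory Set

namespace Pool.Agent.H520Z.Sel

open Pool.Agent.H949Z.Hecke in
theorem hecke (lam η B C : ℝ) (hlam : 0 < lam) (hη : 0 < η) (a : ℕ → ℝ) (ha0 : a 0 = 0)
    (ha : ∀ n : ℕ, 1 ≤ n → |a n| ≤ C * (n : ℝ) ^ B)
    (hFE : ∀ t : ℝ, 0 < t → ∑' n : ℕ, a n * Real.exp (-(t * (η * (n : ℝ) ^ (1 / lam)))) =
      t ^ (-lam) * ∑' n : ℕ, a n * Real.exp (-(η * (n : ℝ) ^ (1 / lam) / t))) :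
    ∃ F : ℂ → ℂ, Differentiable ℂ F ∧
      (∃ ρ K : ℝ, ∀ s : ℂ, ‖F s‖ ≤ K * Real.exp (‖s‖ ^ ρ)) ∧
      (∀ s : ℂ, 0 < s.re → LSeriesSummable (fun n => (a n : ℂ)) s →
        F s = LSeries (fun n => (a n : ℂ)) s) ∧
      (∀ s : ℂ, (∀ n : ℕ, (lam : ℂ) * s ≠ -(n : ℂ)) →
        (∀ n : ℕ, (lam : ℂ) * (1 - starRingEnd ℂ s) ≠ -(n : ℂ)) →
        ((η ^ (-lam) : ℝ) : ℂ) ^ s * Complex.Gamma ((lam : ℂ) * s) * F s =
          starRingEnd ℂ (((η ^ (-lam) : ℝ) : ℂ) ^ (1 - starRingEnd ℂ s) *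
            Complex.Gamma ((lam : ℂ) * (1 - starRingEnd ℂ s)) * F (1 - starRingEnd ℂ s))) ∧
      (∀ σ₁ σ₂ : ℝ, ∃ M K : ℝ, ∀ s : ℂ, σ₁ ≤ s.re → s.re ≤ σ₂ →
        ‖F s‖ ≤ K * (1 + |s.im|) ^ M) := by
  obtain ⟨D, hD, hd⟩ := th_decay hlam hη ha0 ha
  have hFE' : ∀ t : ℝ, 0 < t → th lam η a (1 / t) = t ^ lam * th lam η a t := by
    intro t ht
    have h1 : th lam η a t = t ^ (-lam) * th lam η a (1 / t) := by
      unfold th yy
      rw [hFE t ht]
      congr 1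
      refine tsum_congr fun n => ?_
      congr 3
      ring
    rw [h1, ← mul_assoc, ← Real.rpow_add ht]
    simp
  obtain ⟨hdiff, hfe, K0, hK0, hb⟩ := mellin_facts hlam hη (th lam η a)
    (th_cont hlam hη ha0 ha) hD hd hFE'
  set Λ : ℂ → ℂ := mellin fun t => (th lam η a t : ℂ) with hΛ
  obtain ⟨K1, c, hK1, hc, hg⟩ := FF_growth hlam hη hK0 hb
  refine ⟨FF lam η Λ, FF_diff hdiff, ?_, FF_lseries hlam hη ha0 ha, ?_, ?_⟩
  · refine ⟨3, K1 * Real.exp (4 * c + 64 * c ^ 3), fun s => (hg s).trans ?_⟩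
    rw [mul_assoc, ← Real.exp_add]
    refine mul_le_mul_of_nonneg_left (Real.exp_le_exp.2 ?_) hK1
    have e : ‖s‖ ^ (3 : ℝ) = ‖s‖ ^ (3 : ℕ) := by exact_mod_cast Real.rpow_natCast ‖s‖ 3
    rw [e]
    have hr := norm_nonneg s
    set r := ‖s‖
    have h1 : c * (1 + r) ^ 2 ≤ 2 * c + 2 * c * r ^ 2 := by nlinarith [sq_nonneg (1 - r)]
    have h2 : 2 * c * r ^ 2 ≤ 64 * c ^ 3 + r ^ 3 := by
      rcases le_total r (2 * c) with h | h
      · have : r ^ 2 ≤ (2 * c) ^ 2 := by gcongr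
        have h3 : 2 * c * r ^ 2 ≤ 2 * c * (2 * c) ^ 2 := by gcongr
        have h4 : 0 ≤ r ^ 3 := by positivity
        have h5 : 0 ≤ c ^ 3 := by positivity
        nlinarith
      · have h3 : 2 * c * r ^ 2 ≤ r * r ^ 2 := by gcongr
        have h5 : 0 ≤ c ^ 3 := by positivity
        nlinarith
    linarith
  · intro s h1 h2
    rw [FF_completed hη Λ s h1, FF_completed hη Λ _ h2]
    have e1 : (lam : ℂ) * (1 - starRingEnd ℂ s) = lam - starRingEnd ℂ ((lam : ℂ) * s) := by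
      simp only [map_mul, Complex.conj_ofReal]; ring
    rw [e1, hfe, hΛ, mellin_conj, Complex.conj_conj]
  · intro σ₁ σ₂
    set S : ℝ := |B| + |σ₁| + |σ₂| + 2 with hS
    have hS1 : 1 ≤ S := by
      rw [hS]; linarith [abs_nonneg B, abs_nonneg σ₁, abs_nonneg σ₂]
    have hsum : LSeriesSummable (fun n => (a n : ℂ)) (S : ℂ) := by
      refine LSeriesSummable_of_le_const_mul_rpow (x := B + 1) ?_ ⟨C, fun n hn => ?_⟩
      · simp only [Complex.ofReal_re, hS]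
        linarith [le_abs_self B, abs_nonneg σ₁, abs_nonneg σ₂]
      · simpa using ha n (Nat.one_le_iff_ne_zero.2 hn)
    set Z : ℝ := ∑' n, ‖LSeries.term (fun n => (a n : ℂ)) (S : ℂ) n‖ with hZ
    have hZb : ∀ s : ℂ, s.re = S → ‖FF lam η Λ s‖ ≤ Z := by
      intro s hs
      have hs' : LSeriesSummable (fun n => (a n : ℂ)) s :=
        (LSeriesSummable_iff_of_re_eq_re (by simp [hs])).1 hsum
      rw [FF_lseries hlam hη ha0 ha s (by linarith) hs']
      refine tsum_of_norm_bounded hsum.norm.hasSum fun n => ?_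
      rw [LSeries.norm_term_eq, LSeries.norm_term_eq, hs, Complex.ofReal_re]
    have hZ0 : 0 ≤ Z := tsum_nonneg fun n => norm_nonneg _
    obtain ⟨K2, M, hK2, hM, hl⟩ := FF_left (η := η) hlam hfe hS1 hZb
    obtain ⟨C', hC', hPL⟩ := gauss_PL (1 - S) S M (by linarith)
    refine ⟨M, C' * (K2 + Z), fun s h1 h2 => ?_⟩
    have := hPL (FF lam η Λ) (fun u => (K2 + Z) * (1 + |u|) ^ M) (FF_diff hdiff) ?_ ?_ ?_ s
      (by rw [hS]; linarith [neg_abs_le σ₁, abs_nonneg B, abs_nonneg σ₂])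
      (by rw [hS]; linarith [le_abs_self σ₂, abs_nonneg B, abs_nonneg σ₁])
    · rw [mul_assoc]; exact this
    · refine ⟨K1 + c * (1 + S) ^ 2, 2, fun w hw1 hw2 => (hg w).trans ?_⟩
      have e : (1 + |w.im|) ^ (2 : ℝ) = (1 + |w.im|) ^ (2 : ℕ) := by
        exact_mod_cast Real.rpow_natCast (1 + |w.im|) 2
      rw [e]
      have a1 : 1 + ‖w‖ ≤ (1 + S) * (1 + |w.im|) := by
        have b1 := Complex.norm_le_abs_re_add_abs_im w
        have b2 : |w.re| ≤ S := abs_le.2 ⟨by linarith, hw2⟩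
        nlinarith [abs_nonneg w.im]
      have a2 : c * (1 + ‖w‖) ^ 2 ≤ (K1 + c * (1 + S) ^ 2) * (1 + |w.im|) ^ 2 := by
        have b1 : (1 + ‖w‖) ^ 2 ≤ ((1 + S) * (1 + |w.im|)) ^ 2 := by gcongr
        have b2 : c * (1 + ‖w‖) ^ 2 ≤ c * ((1 + S) * (1 + |w.im|)) ^ 2 := by gcongr
        have b3 : 0 ≤ K1 * (1 + |w.im|) ^ 2 := by positivity
        nlinarith
      have a3 : K1 ≤ K1 + c * (1 + S) ^ 2 := le_add_of_nonneg_right (by positivity)
      gcongr
    · intro u v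
      rw [mul_assoc]
      refine mul_le_mul_of_nonneg_left ?_ (by positivity)
      rw [mul_comm M, Real.exp_mul, ← Real.mul_rpow (by positivity) (by positivity)]
      refine Real.rpow_le_rpow (by positivity) ?_ hM
      have b1 : |u| ≤ |v| + |u - v| := by
        have := abs_add_le v (u - v)
        simpa using this
      have b2 := Real.add_one_le_exp |u - v|
      nlinarith [abs_nonneg v, abs_nonneg (u - v)]
    · rintro w (hw | hw)
      · refine (hl w hw).trans ?_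
        gcongr
        linarith
      · refine (hZb w hw).trans ?_
        have b1 : (1 : ℝ) ≤ (1 + |w.im|) ^ M :=
          Real.one_le_rpow (by linarith [abs_nonneg w.im]) hM
        nlinarith

end Pool.Agent.H520Z.Sel
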